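import Pool.Agent.P.MP_abcfaf_gt.Defs

open Set Filter Topology

namespace Pool.Agent.P.MP_abcfaf_gt

universe u

/-- A continuous tournament. -/
structure Tour (X : Type u) [TopologicalSpace X] where
  b : X → X → Prop
  tot : ∀ x y, x ≠ y → b x y ∨ b y x
  asym : ∀ x y, b x y → ¬ b y x
  opn : ∀ x y, b x y → ∃ U V : Set X, IsOpen U ∧ IsOpen V ∧ x ∈ U ∧ y ∈ V ∧
    ∀ x' ∈ U, ∀ y' ∈ V, b x' y'

variable {X : Type u} [TopologicalSpace X]

namespace Tour

theorem irr (T : Tour X) (x : X) : ¬ T.b x x := fun h => T.asym x x h h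

theorem ne (T : Tour X) {x y : X} (h : T.b x y) : x ≠ y := by
  rintro rfl; exact T.irr _ h

/-- The reversed tournament. -/
def rev (T : Tour X) : Tour X where
  b x y := T.b y x
  tot x y h := (T.tot x y h).symm
  asym x y h := T.asym y x h
  opn x y h := by
    obtain ⟨U, V, hU, hV, hx, hy, H⟩ := T.opn y x h
    exact ⟨V, U, hV, hU, hy, hx, fun x' hx' y' hy' => H y' hy' x' hx'⟩

@[simp] theorem rev_b (T : Tour X) (x y : X) : T.rev.b x y ↔ T.b y x := Iff.rfl

theorem isOpen_out (T : Tour X) (x : X) : IsOpen {y | T.b x y} := by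
  rw [isOpen_iff_mem_nhds]
  intro y hy
  obtain ⟨U, V, _, hV, hx, hy', H⟩ := T.opn x y hy
  exact mem_of_superset (hV.mem_nhds hy') (fun y' h => H x hx y' h)

theorem isOpen_in (T : Tour X) (x : X) : IsOpen {y | T.b y x} := T.rev.isOpen_out x

theorem of_not (T : Tour X) {x y : X} (h : x ≠ y) (h' : ¬ T.b x y) : T.b y x :=
  (T.tot x y h).resolve_left h'

theorem isClosed_out (T : Tour X) (x : X) : IsClosed {y | y = x ∨ T.b x y} := by
  have : {y | y = x ∨ T.b x y} = {y | T.b y x}ᶜ := by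
    ext y
    simp only [mem_ofPred_eq, mem_compl_iff]
    constructor
    · rintro (rfl | h)
      · exact T.irr _
      · exact T.asym _ _ h
    · intro h
      by_cases hy : y = x
      · exact Or.inl hy
      · exact Or.inr (T.of_not hy h)
  rw [this]
  exact (T.isOpen_in x).isClosed_compl

theorem clopen_out (T : Tour X) {E : Set X} (hE : IsClopen E) {x : X} (hx : x ∉ E) :
    IsClopen (E ∩ {y | T.b x y}) := by
  refine ⟨?_, hE.isOpen.inter (T.isOpen_out x)⟩
  have : E ∩ {y | T.b x y} = E ∩ {y | y = x ∨ T.b x y} := by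
    ext y
    simp only [mem_inter_iff, mem_ofPred_eq]
    constructor
    · rintro ⟨h1, h2⟩; exact ⟨h1, Or.inr h2⟩
    · rintro ⟨h1, rfl | h2⟩
      · exact absurd h1 hx
      · exact ⟨h1, h2⟩
  rw [this]
  exact hE.isClosed.inter (T.isClosed_out x)

/-- The tournament modified by a locally constant level function. -/
def lev (T : Tour X) (l : X → ℕ) (hl : IsLocallyConstant l) : Tour X where
  b x y := l y < l x ∨ (l x = l y ∧ T.b x y)
  tot x y h := by
    rcases lt_trichotomy (l x) (l y) with h1 | h1 | h1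
    · exact Or.inr (Or.inl h1)
    · rcases T.tot x y h with h2 | h2
      · exact Or.inl (Or.inr ⟨h1, h2⟩)
      · exact Or.inr (Or.inr ⟨h1.symm, h2⟩)
    · exact Or.inl (Or.inl h1)
  asym x y h h' := by
    rcases h with h | ⟨h, h2⟩ <;> rcases h' with h' | ⟨h', h3⟩
    · omega
    · omega
    · omega
    · exact T.asym _ _ h2 h3
  opn x y h := by
    rcases h with h | ⟨h, h2⟩
    · refine ⟨{x' | l x' = l x}, {y' | l y' = l y}, (hl.isClopen_fiber _).isOpen,
        (hl.isClopen_fiber _).isOpen, rfl, rfl, fun x' hx' y' hy' => Or.inl ?_⟩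
      simp only [mem_ofPred_eq] at hx' hy'
      omega
    · obtain ⟨U, V, hU, hV, hx, hy, H⟩ := T.opn x y h2
      refine ⟨U ∩ {x' | l x' = l x}, V ∩ {y' | l y' = l y},
        hU.inter (hl.isClopen_fiber _).isOpen, hV.inter (hl.isClopen_fiber _).isOpen,
        ⟨hx, rfl⟩, ⟨hy, rfl⟩, fun x' hx' y' hy' => Or.inr ⟨?_, H x' hx'.1 y' hy'.1⟩⟩
      have h3 : l x' = l x := hx'.2
      have h4 : l y' = l y := hy'.2
      omega

end Tour

/-- Every continuous tournament has a king. -/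
def KP (X : Type u) [TopologicalSpace X] : Prop :=
  ∀ T : Tour X, ∃ z, ∀ x, ∃ y, (z = y ∨ T.b z y) ∧ (y = x ∨ T.b y x)

theorem pr_comm {Y : Type u} (a b : Y) (h : a ≠ b) : pr a b h = pr b a h.symm := by
  apply Subtype.ext
  exact Set.pair_comm a b

theorem exists_tour [T2Space X] (φ : Pair X → X) (h1 : IsWeakSel φ) (h2 : ContSel φ) :
    Nonempty (Tour X) := by
  have hm : ∀ a b (h : a ≠ b), φ (pr a b h) = a ∨ φ (pr a b h) = b := fun a b h => h1 (pr a b h)
  refine ⟨⟨fun a b => ∃ h : a ≠ b, φ (pr a b h) = b, ?_, ?_, ?_⟩⟩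
  · intro x y h
    rcases hm x y h with h3 | h3
    · exact Or.inr ⟨h.symm, by rw [← pr_comm x y h]; exact h3⟩
    · exact Or.inl ⟨h, h3⟩
  · rintro x y ⟨h, h3⟩ ⟨h', h4⟩
    rw [pr_comm x y h] at h3
    exact h (h4.symm.trans h3)
  · rintro x y ⟨h, h3⟩
    obtain ⟨A, B, hA, hB, hx, hy, hAB⟩ := t2_separation h
    obtain ⟨U, V, hU, hV, hxU, hyV, H⟩ := h2 x y h B hB (by rw [h3]; exact hy)
    refine ⟨U ∩ A, V ∩ B, hU.inter hA, hV.inter hB, ⟨hxU, hx⟩, ⟨hyV, hy⟩, ?_⟩
    intro x' hx' y' hy'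
    have hne : x' ≠ y' := by
      rintro rfl
      exact Set.disjoint_left.1 hAB hx'.2 hy'.2
    refine ⟨hne, ?_⟩
    rcases hm x' y' hne with h5 | h5
    · have := H x' hx'.1 y' hy'.1 hne
      rw [h5] at this
      exact absurd this (Set.disjoint_left.1 hAB hx'.2)
    · exact h5

theorem kp_of_king (hK : KingSpace X) : KP X := by
  intro T
  have hex : ∀ s : Pair X, ∃ y, y ∈ s.1 ∧ ∃ x ∈ s.1, T.b x y := by
    rintro ⟨s, a, b, h, rfl⟩
    rcases T.tot a b h with h1 | h1
    · exact ⟨b, by simp, a, by simp, h1⟩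
    · exact ⟨a, by simp, b, by simp, h1⟩
  choose φ hφ using hex
  have key : ∀ a b (h : a ≠ b), T.b a b → φ (pr a b h) = b := by
    intro a b h hb
    obtain ⟨h1, x, hx, h2⟩ := hφ (pr a b h)
    rcases h1 with h1 | h1
    · exfalso
      rw [h1] at h2
      rcases hx with rfl | hx
      · exact T.irr _ h2
      · have : x = b := hx
        subst this
        exact T.asym _ _ hb h2
    · exact h1
  have harr : ∀ a b, Arrow φ a b → a = b ∨ T.b a b := by
    rintro a b (h | ⟨h, h1⟩)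
    · exact Or.inl h
    · right
      by_contra h2
      have := key b a h.symm (T.of_not h h2)
      rw [← pr_comm a b h, h1] at this
      exact h this.symm
  obtain ⟨z, hz⟩ := hK φ (fun s => (hφ s).1) (by
    intro a b h W hW hm
    rcases T.tot a b h with h1 | h1
    · obtain ⟨U, V, hU, hV, hx, hy, H⟩ := T.opn a b h1
      rw [key a b h h1] at hm
      refine ⟨U, V ∩ W, hU, hV.inter hW, hx, ⟨hy, hm⟩, fun a' ha b' hb h' => ?_⟩
      rw [key a' b' h' (H a' ha b' hb.1)]
      exact hb.2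
    · obtain ⟨U, V, hU, hV, hx, hy, H⟩ := T.opn b a h1
      rw [pr_comm a b h, key b a h.symm h1] at hm
      refine ⟨V ∩ W, U, hV.inter hW, hU, ⟨hy, hm⟩, hx, fun a' ha b' hb h' => ?_⟩
      rw [pr_comm a' b' h', key b' a' h'.symm (H b' hb a' ha.1)]
      exact ha.2)
  refine ⟨z, fun x => ?_⟩
  obtain ⟨y, h1, h2⟩ := hz x
  exact ⟨y, harr _ _ h1, harr _ _ h2⟩

theorem king_level (hK : KP X) (T : Tour X) (l : X → ℕ) (hl : IsLocallyConstant l) :
    ∃ z, (∀ x, l x ≤ l z) ∧
      ∀ x, l x = l z → ∃ y, l y = l z ∧ (z = y ∨ T.b z y) ∧ (y = x ∨ T.b y x) := by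
  obtain ⟨z, hz⟩ := hK (T.lev l hl)
  have h0 : ∀ a b, (a = b ∨ (T.lev l hl).b a b) → l b ≤ l a ∧ (l a = l b → a = b ∨ T.b a b) := by
    rintro a b (rfl | h | ⟨h, h'⟩)
    · exact ⟨le_rfl, fun _ => Or.inl rfl⟩
    · exact ⟨h.le, fun h' => by omega⟩
    · exact ⟨h.ge, fun _ => Or.inr h'⟩
  refine ⟨z, fun x => ?_, fun x hx => ?_⟩
  · obtain ⟨y, h1, h2⟩ := hz x
    exact (h0 _ _ h2).1.trans (h0 _ _ h1).1
  · obtain ⟨y, h1, h2⟩ := hz x
    have h3 := (h0 _ _ h1).1
    have h4 := (h0 _ _ h2).1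
    exact ⟨y, by omega, (h0 _ _ h1).2 (by omega), (h0 _ _ h2).2 (by omega)⟩

theorem king_clopen (hK : KP X) (T : Tour X) {Y : Set X} (hY : IsClopen Y) (hne : Y.Nonempty) :
    ∃ z ∈ Y, ∀ x ∈ Y, ∃ y ∈ Y, (z = y ∨ T.b z y) ∧ (y = x ∨ T.b y x) := by
  classical
  have hl : IsLocallyConstant (fun x => if x ∈ Y then 1 else 0 : X → ℕ) := by
    rw [IsLocallyConstant.iff_eventually_eq]
    intro x
    by_cases hx : x ∈ Y
    · filter_upwards [hY.isOpen.mem_nhds hx] with y hy
      simp [hx, hy]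
    · filter_upwards [hY.compl.isOpen.mem_nhds hx] with y hy
      have : y ∉ Y := hy
      simp [hx, this]
  obtain ⟨z, h1, h2⟩ := king_level hK T _ hl
  obtain ⟨w, hw⟩ := hne
  have hz : z ∈ Y := by
    by_contra hz
    have := h1 w
    simp [hw, hz] at this
  refine ⟨z, hz, fun x hx => ?_⟩
  obtain ⟨y, h3, h4⟩ := h2 x (by simp [hx, hz])
  refine ⟨y, ?_, h4⟩
  by_contra hy
  simp [hy, hz] at h3

theorem finite_range (hK : KP X) (T : Tour X) {α : Type*} (h : X → α)
    (hh : IsLocallyConstant h) : (range h).Finite := by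
  classical
  by_contra hinf
  have hinf' : (range h).Infinite := hinf
  let e := hinf'.natEmbedding
  let r : α → ℕ := fun a => if hx : ∃ n, (e n : α) = a then hx.choose else 0
  obtain ⟨z, h1, -⟩ := king_level hK T (r ∘ h) (hh.comp r)
  obtain ⟨x, hx⟩ := (e (r (h z) + 1)).2
  have h2 := h1 x
  have h3 : ∃ n, (e n : α) = h x := ⟨_, hx.symm⟩
  have h4 : r (h x) = r (h z) + 1 := by
    have h5 : r (h x) = h3.choose := by simp only [r]; rw [dif_pos h3]
    rw [h5]
    apply e.injective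
    apply Subtype.ext
    rw [h3.choose_spec, hx]
  simp only [Function.comp] at h2
  omega

/-- `p` is a cluster point of the sets `V n` along the indices in `P`. -/
def Clus (P : ℕ → Prop) (V : ℕ → Set X) (p : X) : Prop :=
  ∀ O ∈ 𝓝 p, ∃ᶠ n in atTop, P n ∧ (O ∩ V n).Nonempty

theorem Clus.mono {P P' : ℕ → Prop} {V V' : ℕ → Set X} {p : X} (h : Clus P V p)
    (hP : ∀ n, P n → P' n) (hV : ∀ n, P n → V n ⊆ V' n) : Clus P' V' p := by
  intro O hO
  refine (h O hO).mono ?_
  rintro n ⟨h1, h2⟩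
  exact ⟨hP n h1, h2.mono (inter_subset_inter_right _ (hV n h1))⟩

theorem Clus.mem_closure {P : ℕ → Prop} {V : ℕ → Set X} {p : X} (h : Clus P V p) {A : Set X}
    (hA : ∀ n, P n → V n ⊆ A) : p ∈ closure A := by
  rw [mem_closure_iff_nhds]
  intro O hO
  obtain ⟨n, h1, h2⟩ := (h O hO).exists
  exact h2.mono (inter_subset_inter_right _ (hA n h1))

theorem clus_of_sub {P : ℕ → Prop} {V : ℕ → Set X} {p : X} {φ : ℕ → ℕ} (hφ : StrictMono φ)
    (hP : ∀ n, P (φ n)) (h : Clus (fun _ => True) (fun n => V (φ n)) p) : Clus P V p := by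
  intro O hO
  have := h O hO
  rw [frequently_atTop] at this ⊢
  intro n
  obtain ⟨m, hm, -, h2⟩ := this n
  exact ⟨φ m, hm.trans (hφ.id_le m), hP m, h2⟩

theorem clopen_cluster (hK : KP X) (T : Tour X) (P : ℕ → Prop) (a : ℕ → Set X)
    (hP : ∃ᶠ n in atTop, P n ∧ (a n).Nonempty) (hc : ∀ n, IsClopen (a n))
    (hd : ∀ n m, n ≠ m → Disjoint (a n) (a m)) : ∃ p, Clus P a p := by
  by_contra hno
  push Not at hno
  have hl : IsLocallyConstant (fun x => {n | P n ∧ x ∈ a n}) := by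
    rw [IsLocallyConstant.iff_eventually_eq]
    intro x
    have h1 := hno x
    simp only [Clus, not_forall, not_frequently, eventually_atTop] at h1
    obtain ⟨O, hO, N, hN⟩ := h1
    have h2 : ∀ᶠ y in 𝓝 x, ∀ n ∈ Finset.range N, (y ∈ a n ↔ x ∈ a n) := by
      rw [eventually_all_finset]
      intro n _
      by_cases hx : x ∈ a n
      · filter_upwards [(hc n).isOpen.mem_nhds hx] with y hy
        simp [hx, hy]
      · filter_upwards [(hc n).compl.isOpen.mem_nhds hx] with y hy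
        have : y ∉ a n := hy
        simp [hx, this]
    filter_upwards [h2, hO] with y hy hyO
    ext n
    simp only [mem_ofPred_eq]
    by_cases hn : n < N
    · rw [hy n (Finset.mem_range.2 hn)]
    · have := hN n (by omega)
      constructor
      · rintro ⟨h3, h4⟩
        exact absurd ⟨h3, y, hyO, h4⟩ this
      · rintro ⟨h3, h4⟩
        exact absurd ⟨h3, x, mem_of_mem_nhds hO, h4⟩ this
  have hf := finite_range hK T _ hl
  have hinf : {n | P n ∧ (a n).Nonempty}.Infinite := Nat.frequently_atTop_iff_infinite.1 hP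
  apply hinf
  apply Set.Finite.of_finite_image (f := fun n : ℕ => ({n} : Set ℕ)) _ (fun _ _ _ _ h => singleton_injective h)
  refine hf.subset ?_
  rintro _ ⟨n, ⟨h1, x, hx⟩, rfl⟩
  refine ⟨x, ?_⟩
  ext m
  simp only [mem_ofPred_eq, mem_singleton_iff]
  constructor
  · rintro ⟨-, h2⟩
    by_contra h3
    exact Set.disjoint_left.1 (hd m n h3) h2 hx
  · rintro rfl
    exact ⟨h1, hx⟩

/-- Sequences of nonempty open subsets of `U` have cluster points. -/
def FC (U : Set X) : Prop :=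
  ∀ V : ℕ → Set X, (∀ n, IsOpen (V n)) → (∀ n, (V n).Nonempty) → (∀ n, V n ⊆ U) →
    ∃ p, Clus (fun _ => True) V p

theorem FC.mono {U U' : Set X} (h : FC U) (hU : U' ⊆ U) : FC U' :=
  fun V h1 h2 h3 => h V h1 h2 (fun n => (h3 n).trans hU)

theorem FC.sub {U : Set X} (h : FC U) (hU : IsOpen U) (P : ℕ → Prop) (V : ℕ → Set X)
    (hV : ∀ n, IsOpen (V n)) (hP : ∃ᶠ n in atTop, P n ∧ (V n ∩ U).Nonempty) :
    ∃ p, Clus P V p := by
  obtain ⟨φ, hφ, h1⟩ := extraction_of_frequently_atTop hP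
  obtain ⟨p, hp⟩ := h (fun n => V (φ n) ∩ U) (fun n => (hV _).inter hU) (fun n => (h1 n).2)
    (fun n => inter_subset_right)
  exact ⟨p, clus_of_sub hφ (fun n => (h1 n).1) (hp.mono (fun _ h => h) (fun _ _ => inter_subset_left))⟩

theorem FC.union {U U' : Set X} (h : FC U) (hU : IsOpen U) (h' : FC U') (hU' : IsOpen U') :
    FC (U ∪ U') := by
  intro V h1 h2 h3
  have : ∃ᶠ n in atTop, (True ∧ (V n ∩ U).Nonempty) ∨ (True ∧ (V n ∩ U').Nonempty) := by
    apply Frequently.of_forall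
    intro n
    obtain ⟨x, hx⟩ := h2 n
    rcases h3 n hx with h4 | h4
    · exact Or.inl ⟨trivial, x, hx, h4⟩
    · exact Or.inr ⟨trivial, x, hx, h4⟩
  rcases frequently_or_distrib.1 this with h4 | h4
  · exact h.sub hU _ V h1 h4
  · exact h'.sub hU' _ V h1 h4

/-- Uniqueness of the cluster point of a monotone sequence of sets. -/
theorem clus_unique (T : Tour X) {P : ℕ → Prop} {V : ℕ → Set X}
    (hV : ∀ n m, P n → P m → n < m → ∀ x ∈ V n, ∀ y ∈ V m, T.b x y) {p q : X}
    (hp : Clus P V p) (hq : Clus P V q) : p = q := by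
  have key : ∀ p q : X, Clus P V p → Clus P V q → ¬ T.b p q := by
    intro p q hp hq hb
    obtain ⟨O, O', hO, hO', h1, h2, H⟩ := T.opn p q hb
    obtain ⟨n, h3, y, hy, hy'⟩ := (hq O' (hO'.mem_nhds h2)).exists
    obtain ⟨m, hm, h4, x, hx, hx'⟩ := frequently_atTop.1 (hp O (hO.mem_nhds h1)) (n + 1)
    exact T.asym _ _ (H x hx y hy) (hV n m h3 h4 (by omega) y hy' x hx')
  by_contra hne
  rcases T.tot p q hne with h | h
  · exact key p q hp hq h
  · exact key q p hq hp h

theorem fc_of_pseudo [CompletelyRegularSpace X] {U : Set X} (h : Pseudocompact (closure U)) :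
    FC U := by
  intro V h1 h2 h3
  by_contra hno
  push Not at hno
  choose x hx using h2
  have hf : ∀ n, ∃ f : X → unitInterval, Continuous f ∧ f (x n) = 0 ∧ EqOn f 1 (V n)ᶜ :=
    fun n => CompletelyRegularSpace.completely_regular (x n) (V n)ᶜ (h1 n).isClosed_compl
      (fun h => h (hx n))
  choose f hf1 hf2 hf3 using hf
  let g : ℕ → X → ℝ := fun n y => (n : ℝ) * (1 - (f n y : ℝ))
  have hgc : ∀ n, Continuous (g n) := fun n =>
    continuous_const.mul (continuous_const.sub (continuous_subtype_val.comp (hf1 n)))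
  have hg0 : ∀ n y, 0 ≤ g n y := fun n y =>
    mul_nonneg (Nat.cast_nonneg n) (sub_nonneg.2 (f n y).2.2)
  have hlf : LocallyFinite fun n => Function.support (g n) := by
    intro p
    have h4 := hno p
    simp only [Clus, not_forall, not_frequently, eventually_atTop] at h4
    obtain ⟨O, hO, N, hN⟩ := h4
    refine ⟨O, hO, (Set.finite_lt_nat N).subset ?_⟩
    rintro n ⟨y, hy, hyO⟩
    by_contra hn
    apply hN n (by simpa using hn)
    refine ⟨trivial, y, hyO, ?_⟩
    by_contra hy'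
    apply hy
    have : f n y = 1 := hf3 n hy'
    simp [g, this]
  have hc : Continuous fun y => ∑ᶠ n, g n y := continuous_finsum hgc hlf
  obtain ⟨M, hM⟩ := h (fun y => ∑ᶠ n, g n y.1) (hc.comp continuous_subtype_val)
  obtain ⟨n, hn⟩ := exists_nat_gt M
  have h5 := hM ⟨x n, subset_closure (h3 n (hx n))⟩
  have h6 : g n (x n) ≤ ∑ᶠ k, g k (x n) :=
    single_le_finsum n (hlf.point_finite (x n)) (fun k => hg0 k _)
  have h7 : g n (x n) = n := by simp [g, hf2 n]
  have h8 := le_abs_self (∑ᶠ k, g k (x n))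
  simp only at h5
  linarith

theorem fc_of_compact {U K : Set X} (hK : IsCompact K) (hU : U ⊆ K) : FC U := by
  intro V _ h2 h3
  choose x hx using h2
  obtain ⟨p, -, hp⟩ := hK.exists_mapClusterPt_of_frequently (l := atTop) (f := x)
    (Frequently.of_forall fun n => hU (h3 n (hx n)))
  refine ⟨p, fun O hO => ?_⟩
  exact (mapClusterPt_iff_frequently.1 hp O hO).mono fun n hn => ⟨trivial, x n, hn, hx n⟩

end Pool.Agent.P.MP_abcfaf_gt
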