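import Pool.Agent.P.MP_abcfaf_gt.ML

open Set Filter Topology

namespace Pool.Agent.P.MP_abcfaf_gt

universe u

variable {X : Type u} [TopologicalSpace X]

/-- An ideal of small sets that contains a feebly compact open neighbourhood of each point. -/
structure Small (X : Type u) [TopologicalSpace X] where
  S : Set X → Prop
  mono : ∀ {A B}, A ⊆ B → S B → S A
  union : ∀ {A B}, S A → S B → S (A ∪ B)
  loc : ∀ x, ∃ U, IsOpen U ∧ x ∈ U ∧ S U ∧ FC U

/-- The quasi-component of a point. -/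
def QC (z : X) : Set X := {y | ∀ E, IsClopen E → z ∈ E → y ∈ E}

theorem mem_QC (z : X) : z ∈ QC z := fun _ _ h => h

theorem QC_sub {z c : X} (hc : c ∈ QC z) {E : Set X} (hE : IsClopen E) (h : c ∈ E) :
    QC z ⊆ E := by
  intro y hy
  apply hy E hE
  by_contra hz
  exact hc Eᶜ hE.compl hz h

theorem QC_out {z x : X} (hx : x ∉ QC z) : ∃ E, IsClopen E ∧ QC z ⊆ E ∧ x ∉ E := by
  simp only [QC, mem_ofPred_eq, not_forall] at hx
  obtain ⟨E, h1, h2, h3⟩ := hx
  exact ⟨E, h1, QC_sub (mem_QC z) h1 h2, h3⟩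

theorem Tour.unif (T : Tour X) {z x c c' : X} (hx : x ∉ QC z) (hc : c ∈ QC z) (hc' : c' ∈ QC z)
    (h : T.b x c) : T.b x c' := by
  obtain ⟨E, h1, h2, h3⟩ := QC_out hx
  exact (QC_sub hc (T.clopen_out h1 h3) ⟨h2 hc, h⟩ hc').2

theorem Tour.nocyc (T : Tour X) {z a c y : X} (ha : a ∈ QC z) (hy : y ∈ QC z)
    (h1 : T.b a c) (h2 : T.b c y) : ¬ T.b y a := by
  intro h3
  have hcl : IsClopen ({w | T.b c w} ∩ {w | T.b w a}) := by
    refine ⟨?_, (T.isOpen_out c).inter (T.isOpen_in a)⟩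
    have : ({w | T.b c w} ∩ {w | T.b w a}) = ({w | T.b w c} ∪ {w | T.b a w})ᶜ := by
      ext w
      simp only [mem_inter_iff, mem_ofPred_eq, mem_compl_iff, mem_union, not_or]
      constructor
      · rintro ⟨h4, h5⟩
        exact ⟨T.asym _ _ h4, T.asym _ _ h5⟩
      · rintro ⟨h4, h5⟩
        refine ⟨T.of_not ?_ h4, T.of_not ?_ h5⟩
        · rintro rfl; exact h5 h1
        · rintro rfl; exact h4 h1
    rw [this]
    exact ((T.isOpen_in c).union (T.isOpen_out a)).isClosed_compl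
  exact T.irr a (QC_sub hy hcl ⟨h2, h3⟩ ha).2

theorem Tour.tr1 (T : Tour X) {z a c y : X} (ha : a ∈ QC z) (hc : c ∈ QC z)
    (h1 : T.b a c) (h2 : T.b c y) : T.b a y := by
  have hne : y ≠ a := by
    rintro rfl
    exact T.asym _ _ h1 h2
  exact T.of_not hne (fun h3 => T.nocyc hc ha h2 h3 h1)

theorem Tour.tr2 (T : Tour X) {z a c y : X} (hc : c ∈ QC z) (hy : y ∈ QC z)
    (h1 : T.b a c) (h2 : T.b c y) : T.b a y :=
  T.rev.tr1 hy hc h2 h1

theorem QC_max (hK : KP X) (T : Tour X) (z : X) :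
    ∃ M ∈ QC z, ∀ c ∈ QC z, c = M ∨ T.b M c := by
  by_contra hno
  push Not at hno
  have hup : ∀ c ∈ QC z, ∃ c' ∈ QC z, T.b c' c := by
    intro c hc
    obtain ⟨c', h1, h2, h3⟩ := hno c hc
    exact ⟨c', h1, T.of_not h2.symm h3⟩
  let Y : Set X := {y | ∃ c ∈ QC z, T.b c y}
  have hQY : QC z ⊆ Y := hup
  have hY : IsClopen Y := by
    constructor
    · rw [← isOpen_compl_iff, isOpen_iff_mem_nhds]
      intro y hy
      have hyQ : y ∉ QC z := fun h => hy (hQY h)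
      obtain ⟨E, h1, h2, h3⟩ := QC_out hyQ
      have hyz : T.b y z := T.of_not (fun h => hyQ (h ▸ mem_QC z)) (fun h => hy ⟨z, mem_QC z, h⟩)
      filter_upwards [h1.compl.isOpen.mem_nhds h3, (T.isOpen_in z).mem_nhds hyz] with w hw hwz
      rintro ⟨c, hc, hcw⟩
      exact T.asym _ _ hcw (T.unif (fun h => hw (h2 h)) (mem_QC z) hc hwz)
    · have : Y = ⋃ c ∈ QC z, {y | T.b c y} := by
        ext y; simp [Y]
      rw [this]
      exact isOpen_biUnion fun c _ => T.isOpen_out c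
  obtain ⟨k, hk, hking⟩ := king_clopen hK T hY ⟨z, hQY (mem_QC z)⟩
  by_cases hkQ : k ∈ QC z
  · obtain ⟨c', hc', h1⟩ := hup k hkQ
    obtain ⟨y, -, h2, h3⟩ := hking c' (hQY hc')
    rcases h2 with rfl | h2 <;> rcases h3 with rfl | h3
    · exact T.irr _ h1
    · exact T.asym _ _ h1 h3
    · exact T.asym _ _ h1 h2
    · exact T.nocyc hkQ hc' h2 h3 h1
  · have hall : ∀ y ∈ Y, y ∉ QC z → ∀ c ∈ QC z, T.b c y := by
      rintro y ⟨c0, hc0, h0⟩ hyQ c hc
      exact T.rev.unif hyQ hc0 hc h0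
    obtain ⟨y, hy, h2, h3⟩ := hking z (hQY (mem_QC z))
    have hyQ : y ∉ QC z := by
      intro hyQ
      rcases h2 with rfl | h2
      · exact hkQ hyQ
      · exact T.asym _ _ h2 (hall k hk hkQ y hyQ)
    rcases h3 with rfl | h3
    · exact hyQ (mem_QC _)
    · exact T.asym _ _ h3 (hall y hy hyQ z (mem_QC z))

theorem QC_cut (T : Tour X) {z c : X} (hc : c ∈ QC z) {D : Set X} (hD : D ∈ 𝓝 c) :
    ∃ E Up : Set X, IsClopen E ∧ QC z ⊆ E ∧ IsOpen Up ∧ c ∈ Up ∧ closure Up ⊆ Up ∪ D ∧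
      (Up = univ ∨ ∃ d ∈ QC z, T.b d c ∧ Up = {y | T.b d y}) ∧
      ∀ x ∈ E ∩ Up, x ≠ c → ∃ d ∈ D, T.b d x := by
  by_cases hcl : c ∈ closure {y | T.b y c}
  · obtain ⟨d, hd, hdc⟩ := mem_closure_iff_nhds.1 hcl D hD
    by_cases hdQ : d ∈ QC z
    · refine ⟨univ, {y | T.b d y}, isClopen_univ, subset_univ _, T.isOpen_out d, hdc, ?_,
        Or.inr ⟨d, hdQ, hdc, rfl⟩, fun x hx _ => ⟨d, hd, hx.2⟩⟩
      refine (closure_minimal (fun y hy => Or.inr hy) (T.isClosed_out d)).trans ?_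
      rintro y (rfl | hy)
      · exact Or.inr hd
      · exact Or.inl hy
    · obtain ⟨C, h1, h2, h3⟩ := QC_out hdQ
      refine ⟨C ∩ {y | T.b d y}, univ, T.clopen_out h1 h3,
        QC_sub hc (T.clopen_out h1 h3) ⟨h2 hc, hdc⟩, isOpen_univ, trivial, by simp, Or.inl rfl,
        fun x hx _ => ⟨d, hd, hx.1.2⟩⟩
  · have hP : IsClopen {y | T.b y c} := by
      refine ⟨?_, T.isOpen_in c⟩
      rw [← closure_subset_iff_isClosed]
      intro y hy
      rcases closure_minimal (fun y hy => Or.inr hy) (T.rev.isClosed_out c) hy with rfl | h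
      · exact absurd hy hcl
      · exact h
    refine ⟨{y | T.b y c}ᶜ, univ, hP.compl, QC_sub hc hP.compl (T.irr c), isOpen_univ, trivial,
      by simp, Or.inl rfl, fun x hx hxc => ⟨c, mem_of_mem_nhds hD, T.of_not hxc hx.1⟩⟩

theorem normal_form [RegularSpace X] (T : Tour X) (I : Small X) {z c : X} (hc : c ∈ QC z) :
    ∃ E Up Lo : Set X, IsClopen E ∧ QC z ⊆ E ∧ IsOpen Up ∧ IsOpen Lo ∧ c ∈ Up ∧ c ∈ Lo ∧
      (Up = univ ∨ ∃ d ∈ QC z, T.b d c ∧ Up = {y | T.b d y}) ∧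
      (Lo = univ ∨ ∃ d ∈ QC z, T.b c d ∧ Lo = {y | T.b y d}) ∧ I.S (E ∩ Up ∩ Lo) := by
  obtain ⟨U, hU, hcU, hS, hfc⟩ := I.loc c
  obtain ⟨N, hN, hNc, hNU⟩ := exists_mem_nhds_isClosed_subset (hU.mem_nhds hcU)
  have hcO : c ∈ interior N := mem_interior_iff_mem_nhds.2 hN
  have hFc : IsClosed (N \ interior N) := hNc.sdiff isOpen_interior
  obtain ⟨D0, hD0, hun⟩ := module_lemma T hU hfc (F := N \ interior N)
    (sdiff_subset.trans hNU) hcU (by rw [hFc.closure_eq]; exact fun h => h.2 hcO)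
  have hD : D0 ∩ interior N ∈ 𝓝 c := inter_mem hD0 (isOpen_interior.mem_nhds hcO)
  obtain ⟨E1, Up, a1, a2, a3, a4, a5, a6, a7⟩ := QC_cut T hc hD
  obtain ⟨E2, Lo, b1, b2, b3, b4, b5, b6, b7⟩ := QC_cut T.rev hc hD
  have hJ : ∀ x, x ∈ E1 → x ∈ E2 → x ∈ Up → x ∈ Lo → x ∈ N → x ∈ interior N := by
    intro x h1 h2 h3 h4 h5
    by_contra h6
    have hxc : x ≠ c := by
      rintro rfl
      exact h6 hcO
    obtain ⟨d, hd, hdx⟩ := a7 x ⟨h1, h3⟩ hxc
    obtain ⟨d', hd', hdx'⟩ := b7 x ⟨h2, h4⟩ hxc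
    rcases hun x ⟨h5, h6⟩ with h | h
    · exact T.asym _ _ hdx (h d hd.1)
    · exact T.asym _ _ hdx' (h d' hd'.1)
  have hA : IsClopen ((E1 ∩ E2 ∩ Up ∩ Lo) \ N) := by
    refine ⟨?_, (((a1.inter b1).isOpen.inter a3).inter b3).sdiff hNc⟩
    rw [← closure_subset_iff_isClosed]
    intro x hx
    have h1 : x ∈ E1 := closure_minimal (fun y hy => hy.1.1.1.1) a1.isClosed hx
    have h2 : x ∈ E2 := closure_minimal (fun y hy => hy.1.1.1.2) b1.isClosed hx
    have h3 : x ∉ interior N := by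
      have : x ∈ closure Nᶜ := closure_mono (fun y hy => hy.2) hx
      rw [closure_compl] at this
      exact this
    have h4 : x ∈ Up := by
      rcases a5 (closure_mono (fun y hy => hy.1.1.2) hx) with h | h
      · exact h
      · exact absurd h.2 h3
    have h5 : x ∈ Lo := by
      rcases b5 (closure_mono (fun y hy => hy.1.2) hx) with h | h
      · exact h
      · exact absurd h.2 h3
    exact ⟨⟨⟨⟨h1, h2⟩, h4⟩, h5⟩, fun h => h3 (hJ x h1 h2 h4 h5 h)⟩
  have hE : IsClopen ((E1 ∩ E2) \ ((E1 ∩ E2 ∩ Up ∩ Lo) \ N)) := (a1.inter b1).diff hA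
  refine ⟨_, Up, Lo, hE, QC_sub hc hE ⟨⟨a2 hc, b2 hc⟩, fun h => h.2 (mem_of_mem_nhds hN)⟩,
    a3, b3, a4, b4, a6, b6, I.mono ?_ hS⟩
  rintro x ⟨⟨⟨h1, h2⟩, h3⟩, h4⟩
  apply hNU
  by_contra h5
  exact h2 ⟨⟨⟨h1, h3⟩, h4⟩, h5⟩

theorem small_clopen [RegularSpace X] (hK : KP X) (T : Tour X) (I : Small X) (z : X) :
    ∃ K, IsClopen K ∧ z ∈ K ∧ I.S K := by
  obtain ⟨M, hM, hMmax⟩ := QC_max hK T z
  obtain ⟨m, hm, hmmin⟩ := QC_max hK T.rev z
  let good : X → Prop := fun c => ∃ E, IsClopen E ∧ QC z ⊆ E ∧ I.S (E ∩ {y | y = c ∨ T.b c y})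
  have gdown : ∀ e ∈ QC z, ∀ e' ∈ QC z, good e → T.b e e' → good e' := by
    rintro e he e' he' ⟨E, h1, h2, h3⟩ h
    refine ⟨E, h1, h2, I.mono ?_ h3⟩
    rintro y ⟨h4, rfl | h5⟩
    · exact ⟨h4, Or.inr h⟩
    · exact ⟨h4, Or.inr (T.tr1 he he' h h5)⟩
  have star : ∀ c ∈ QC z, ∃ J : Set X, IsOpen J ∧ c ∈ J ∧ ∃ pp : Prop,
      (∀ e ∈ QC z, e ∈ J → (good e ↔ pp)) ∧ ((∀ d ∈ QC z, ¬ T.b c d) → pp) := by
    intro c hc
    obtain ⟨E, Up, Lo, h1, h2, h3, h4, h5, h6, h7, h8, h9⟩ := normal_form T I hc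
    have hUp : ∀ e ∈ QC z, e ∈ Up → ∀ y, (y = e ∨ T.b e y) → y ∈ Up := by
      intro e he heU y hy
      rcases h7 with rfl | ⟨d, hd, -, rfl⟩
      · trivial
      · rcases hy with rfl | hy
        · exact heU
        · exact T.tr1 hd he heU hy
    rcases h8 with rfl | ⟨d, hd, hcd, rfl⟩
    · refine ⟨Up, h3, h5, True, fun e he heU => ⟨fun _ => trivial, fun _ => ?_⟩, fun _ => trivial⟩
      refine ⟨E, h1, h2, I.mono ?_ h9⟩
      exact fun y hy => ⟨⟨hy.1, hUp e he heU y hy.2⟩, trivial⟩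
    · refine ⟨Up ∩ {y | T.b y d}, h3.inter h4, ⟨h5, h6⟩, good d,
        fun e he heU => ⟨fun hg => gdown e he d hd hg heU.2, ?_⟩, fun h => absurd hcd (h d hd)⟩
      rintro ⟨E2, k1, k2, k3⟩
      refine ⟨E ∩ E2, h1.inter k1, subset_inter h2 k2, I.mono ?_ (I.union h9 k3)⟩
      rintro y ⟨⟨hy1, hy2⟩, hy3⟩
      by_cases hyd : T.b y d
      · exact Or.inl ⟨⟨hy1, hUp e he heU.1 y hy3⟩, hyd⟩
      · refine Or.inr ⟨hy2, ?_⟩
        by_cases hyd' : y = d
        · exact Or.inl hyd'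
        · exact Or.inr (T.of_not hyd' hyd)
  have gm : good m := by
    obtain ⟨J, -, h2, pp, h3, h4⟩ := star m hm
    rw [h3 m hm h2]
    apply h4
    intro d hd hb
    rcases hmmin d hd with rfl | h
    · exact T.irr _ hb
    · exact T.asym _ _ hb h
  have gM : good M := by
    by_contra hM'
    let Ts : Set X := {y | (y ∈ QC z ∧ good y) ∨ (y ∉ QC z ∧ T.b z y)}
    have hT : IsClopen Ts := by
      have hlc : ∀ y, ∀ᶠ w in 𝓝 y, (w ∈ Ts ↔ y ∈ Ts) := by
        intro y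
        by_cases hy : y ∈ QC z
        · obtain ⟨J, h1, h2, pp, h3, -⟩ := star y hy
          by_cases hg : good y
          · have hMy : T.b M y := by
              rcases hMmax y hy with rfl | h
              · exact absurd hg hM'
              · exact h
            filter_upwards [h1.mem_nhds h2, (T.isOpen_out M).mem_nhds hMy] with w hw hw'
            refine ⟨fun _ => Or.inl ⟨hy, hg⟩, fun _ => ?_⟩
            by_cases hwQ : w ∈ QC z
            · exact Or.inl ⟨hwQ, (h3 w hwQ hw).2 ((h3 y hy h2).1 hg)⟩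
            · exact Or.inr ⟨hwQ, T.rev.unif hwQ hM (mem_QC z) hw'⟩
          · have hym : T.b y m := by
              rcases hmmin y hy with rfl | h
              · exact absurd gm hg
              · exact h
            filter_upwards [h1.mem_nhds h2, (T.isOpen_in m).mem_nhds hym] with w hw hw'
            constructor
            · rintro (⟨hwQ, hwg⟩ | ⟨hwQ, hwb⟩)
              · exact absurd ((h3 y hy h2).2 ((h3 w hwQ hw).1 hwg)) hg
              · exact absurd (T.unif hwQ hm (mem_QC z) hw') (T.asym _ _ hwb)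
            · rintro (⟨-, h⟩ | ⟨h, -⟩)
              · exact absurd h hg
              · exact absurd hy h
        · obtain ⟨E, h1, h2, h3⟩ := QC_out hy
          have hyz : z ≠ y := fun h => hy (h ▸ mem_QC z)
          rcases T.tot z y hyz with h | h
          · filter_upwards [h1.compl.isOpen.mem_nhds h3, (T.isOpen_out z).mem_nhds h] with w hw hw'
            exact ⟨fun _ => Or.inr ⟨hy, h⟩, fun _ => Or.inr ⟨fun h4 => hw (h2 h4), hw'⟩⟩
          · filter_upwards [h1.compl.isOpen.mem_nhds h3, (T.isOpen_in z).mem_nhds h] with w hw hw'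
            constructor
            · rintro (⟨h4, -⟩ | ⟨-, h4⟩)
              · exact absurd (h2 h4) hw
              · exact absurd h4 (T.asym _ _ hw')
            · rintro (⟨h4, -⟩ | ⟨-, h4⟩)
              · exact absurd h4 hy
              · exact absurd h4 (T.asym _ _ h)
      constructor
      · rw [← isOpen_compl_iff, isOpen_iff_mem_nhds]
        intro y hy
        filter_upwards [hlc y] with w hw
        exact fun h => hy (hw.1 h)
      · rw [isOpen_iff_mem_nhds]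
        intro y hy
        filter_upwards [hlc y] with w hw
        exact hw.2 hy
    rcases QC_sub hm hT (Or.inl ⟨hm, gm⟩) hM with h | h
    · exact hM' h.2
    · exact h.1 hM
  obtain ⟨E2, k1, k2, k3⟩ := gM
  obtain ⟨E, Up, Lo, h1, h2, -, -, -, -, h7, h8, h9⟩ := normal_form T I hM
  refine ⟨E ∩ E2, h1.inter k1, ⟨h2 (mem_QC z), k2 (mem_QC z)⟩, I.mono ?_ (I.union h9 k3)⟩
  rintro y ⟨hy1, hy2⟩
  by_cases hy : y = M ∨ T.b M y
  · exact Or.inr ⟨hy2, hy⟩
  · push Not at hy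
    have hyM : T.b y M := T.of_not (Ne.symm hy.1) hy.2
    refine Or.inl ⟨⟨hy1, ?_⟩, ?_⟩
    · rcases h7 with rfl | ⟨d, hd, hdM, -⟩
      · trivial
      · rcases hMmax d hd with rfl | h
        · exact absurd hdM (T.irr _)
        · exact absurd hdM (T.asym _ _ h)
    · rcases h8 with rfl | ⟨d, hd, hMd, rfl⟩
      · trivial
      · exact T.tr2 hM hd hyM hMd

end Pool.Agent.P.MP_abcfaf_gt
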