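import Mathlib

namespace Pool.Agent.P.MP_abcfaf_gt

universe u

/-- The family of two-element subsets of `X`. -/
def Pair (X : Type u) : Type u := {s : Set X // ∃ a b : X, a ≠ b ∧ s = {a, b}}

/-- The two-element set `{a, b}` for `a ≠ b`. -/
def pr {X : Type u} (a b : X) (h : a ≠ b) : Pair X := ⟨{a, b}, a, b, h, rfl⟩

/-- A weak selection picks one of the two points of every two-element set. -/
def IsWeakSel {X : Type u} (φ : Pair X → X) : Prop := ∀ s : Pair X, φ s ∈ s.1

/-- The relation `a → b`: either `a = b`, or `a ≠ b` and the selection picks `b`. -/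
def Arrow {X : Type u} (φ : Pair X → X) (a b : X) : Prop :=
  a = b ∨ ∃ h : a ≠ b, φ (pr a b h) = b

/-- `z` is a king: every point is reached from `z` in two arrows. -/
def IsKing {X : Type u} (φ : Pair X → X) (z : X) : Prop :=
  ∀ x : X, ∃ y : X, Arrow φ z y ∧ Arrow φ y x

/-- Continuity of a weak selection. -/
def ContSel {X : Type u} [TopologicalSpace X] (φ : Pair X → X) : Prop :=
  ∀ (a b : X) (h : a ≠ b) (W : Set X), IsOpen W → φ (pr a b h) ∈ W →
    ∃ U V : Set X, IsOpen U ∧ IsOpen V ∧ a ∈ U ∧ b ∈ V ∧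
      ∀ a' ∈ U, ∀ b' ∈ V, ∀ h' : a' ≠ b', φ (pr a' b' h') ∈ W

/-- Every continuous weak selection has a king. -/
def KingSpace (X : Type u) [TopologicalSpace X] : Prop :=
  ∀ φ : Pair X → X, IsWeakSel φ → ContSel φ → ∃ z : X, IsKing φ z

/-- Every continuous real function is bounded. -/
def Pseudocompact (Y : Type u) [TopologicalSpace Y] : Prop :=
  ∀ f : Y → ℝ, Continuous f → ∃ M : ℝ, ∀ y : Y, |f y| ≤ M

/-- Every point has an open neighbourhood whose closure is pseudocompact. -/
def LocPseudo (X : Type u) [TopologicalSpace X] : Prop :=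
  ∀ x : X, ∃ U : Set X, IsOpen U ∧ x ∈ U ∧ Pseudocompact (closure U)

end Pool.Agent.P.MP_abcfaf_gt
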