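import Pool.Agent.P.MP_abcfaf_gt.Main

namespace Pool.Agent.P.MP_abcfaf_gt.KnownLocallyCompact

open Pool.Agent.P.MP_abcfaf_gt

universe u

/-- Q1: a locally compact Hausdorff king space with a continuous weak selection is compact. -/
theorem known (X : Type u) [TopologicalSpace X] [T2Space X] [LocallyCompactSpace X]
    (hking : KingSpace X) (hsel : ∃ φ : Pair X → X, IsWeakSel φ ∧ ContSel φ) :
    CompactSpace X := by
  obtain ⟨φ, h1, h2⟩ := hsel
  obtain ⟨T⟩ := exists_tour φ h1 h2
  refine compact_of_kp (kp_of_king hking) T fun x => ?_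
  obtain ⟨K, hK, hx⟩ := exists_compact_mem_nhds x
  exact ⟨interior K, isOpen_interior, mem_interior_iff_mem_nhds.2 hx,
    fc_of_compact hK interior_subset⟩

end Pool.Agent.P.MP_abcfaf_gt.KnownLocallyCompact
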