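import Pool.Agent.P.MP_abcfaf_gt.Main

namespace Pool.Agent.P.MP_abcfaf_gt.KnownLocallyPseudocompact

open Pool.Agent.P.MP_abcfaf_gt

universe u

/-- Q2: a locally pseudocompact Tychonoff king space with a continuous weak selection is compact. -/
theorem known (X : Type u) [TopologicalSpace X] [T35Space X] (hloc : LocPseudo X)
    (hking : KingSpace X) (hsel : ∃ φ : Pair X → X, IsWeakSel φ ∧ ContSel φ) :
    CompactSpace X := by
  obtain ⟨φ, h1, h2⟩ := hsel
  obtain ⟨T⟩ := exists_tour φ h1 h2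
  refine compact_of_kp (kp_of_king hking) T fun x => ?_
  obtain ⟨U, hU, hx, hp⟩ := hloc x
  exact ⟨U, hU, hx, fc_of_pseudo hp⟩

end Pool.Agent.P.MP_abcfaf_gt.KnownLocallyPseudocompact
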