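import Pool.Agent.P.MP_abcfaf_gt.Basic

open Set Filter Topology

namespace Pool.Agent.P.MP_abcfaf_gt

universe u

variable {X : Type u} [TopologicalSpace X]

/-- Oriented relation: `x` beats `y` if `β`, and `y` beats `x` otherwise. -/
def Tour.r (T : Tour X) (β : Bool) (x y : X) : Prop := if β then T.b x y else T.b y x

theorem Tour.r_exists (T : Tour X) {x y : X} (h : x ≠ y) : ∃ β, T.r β x y := by
  rcases T.tot x y h with h1 | h1
  · exact ⟨true, by simpa [Tour.r] using h1⟩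
  · exact ⟨false, by simpa [Tour.r] using h1⟩

theorem Tour.r_unique (T : Tour X) {x y : X} {β γ : Bool} (h : T.r β x y) (h' : T.r γ x y) :
    β = γ := by
  cases β <;> cases γ <;> simp [Tour.r] at h h' ⊢
  · exact T.asym _ _ h h'
  · exact T.asym _ _ h h'

theorem Tour.r_opn (T : Tour X) {x y : X} {β : Bool} (h : T.r β x y) :
    ∃ U V : Set X, IsOpen U ∧ IsOpen V ∧ x ∈ U ∧ y ∈ V ∧ ∀ x' ∈ U, ∀ y' ∈ V, T.r β x' y' := by
  cases β
  · simpa [Tour.r] using T.rev.opn x y (by simpa [Tour.r] using h)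
  · simpa [Tour.r] using T.opn x y (by simpa [Tour.r] using h)

theorem clus_unique' (T : Tour X) (γ : Bool) {P : ℕ → Prop} {V : ℕ → Set X}
    (hV : ∀ n m, P n → P m → n < m → ∀ x ∈ V n, ∀ y ∈ V m, T.r γ x y) {p q : X}
    (hp : Clus P V p) (hq : Clus P V q) : p = q := by
  cases γ
  · exact clus_unique T.rev (by simpa [Tour.r] using hV) hp hq
  · exact clus_unique T (by simpa [Tour.r] using hV) hp hq

/-- The module lemma. -/
theorem module_lemma [RegularSpace X] (T : Tour X) {U F : Set X} (hU : IsOpen U) (hfc : FC U)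
    (hF : F ⊆ U) {z : X} (hz : z ∈ U) (hzF : z ∉ closure F) :
    ∃ D ∈ 𝓝 z, ∀ x ∈ F, (∀ d ∈ D, T.b x d) ∨ (∀ d ∈ D, T.b d x) := by
  by_contra hno
  push Not at hno
  obtain ⟨N, hN, hNc, hNs⟩ := exists_mem_nhds_isClosed_subset
    (inter_mem (hU.mem_nhds hz) (isClosed_closure.isOpen_compl.mem_nhds hzF))
  obtain ⟨N', hN', hN'c, hN's⟩ := exists_mem_nhds_isClosed_subset (interior_mem_nhds.2 hN)
  have hFN : ∀ x ∈ F, x ∉ N := fun x hx hxN => (hNs hxN).2 (subset_closure hx)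
  let W := {D : Set X // IsOpen D ∧ z ∈ D ∧ D ⊆ N'}
  have step : ∀ D : W, ∃ D' : W, ∃ G S : Set X, ∃ β γ : Bool, D'.1 ⊆ D.1 ∧ IsOpen G ∧ IsOpen S ∧
      G.Nonempty ∧ S.Nonempty ∧ G ⊆ U \ N ∧ S ⊆ D.1 ∧ (∀ x ∈ G, ∀ y ∈ D'.1, T.r β x y) ∧
      (∀ x ∈ G, ∀ y ∈ S, T.r (!β) x y) ∧ (∀ x ∈ S, ∀ y ∈ D'.1, T.r γ x y) := by
    rintro ⟨D, hD, hzD, hDN⟩
    obtain ⟨x, hx, ⟨d1, hd1, h1⟩, ⟨d2, hd2, h2⟩⟩ := hno D (hD.mem_nhds hzD)
    have hne : ∀ d ∈ D, x ≠ d := by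
      rintro d hd rfl
      exact hFN x hx (interior_subset (hN's (hDN hd)))
    have h1' := T.of_not (hne d1 hd1) h1
    have h2' := T.of_not (hne d2 hd2).symm h2
    obtain ⟨β, hβ⟩ := T.r_exists (hne z hzD)
    obtain ⟨t, ht, hβ'⟩ : ∃ t ∈ D, T.r (!β) x t := by
      cases β
      · exact ⟨d2, hd2, by simpa [Tour.r] using h2'⟩
      · exact ⟨d1, hd1, by simpa [Tour.r] using h1'⟩
    have htz : t ≠ z := by
      rintro rfl
      have := T.r_unique hβ hβ'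
      simp at this
    obtain ⟨γ, hγ⟩ := T.r_exists htz
    obtain ⟨A1, B1, a1, b1, c1, e1, H1⟩ := T.r_opn hβ
    obtain ⟨A2, B2, a2, b2, c2, e2, H2⟩ := T.r_opn hβ'
    obtain ⟨A3, B3, a3, b3, c3, e3, H3⟩ := T.r_opn hγ
    refine ⟨⟨D ∩ (B1 ∩ B3), hD.inter (b1.inter b3), ⟨hzD, e1, e3⟩,
      inter_subset_left.trans hDN⟩, (U \ N) ∩ (A1 ∩ A2), D ∩ (B2 ∩ A3), β, γ, inter_subset_left,
      (hU.sdiff hNc).inter (a1.inter a2), hD.inter (b2.inter a3),
      ⟨x, ⟨hF hx, hFN x hx⟩, c1, c2⟩, ⟨t, ht, e2, c3⟩, inter_subset_left, inter_subset_left,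
      fun x' hx' y hy => H1 x' hx'.2.1 y hy.2.1, fun x' hx' y hy => H2 x' hx'.2.2 y hy.2.1,
      fun x' hx' y hy => H3 x' hx'.2.2 y hy.2.2⟩
  choose nx G S β γ h1 h2 h3 h4 h5 h6 h7 h8 h9 h10 using step
  let D0 : W := ⟨interior N', isOpen_interior, mem_interior_iff_mem_nhds.2 hN', interior_subset⟩
  let D : ℕ → W := fun n => nx^[n] D0
  have hDs : ∀ n, D (n + 1) = nx (D n) := fun n => Function.iterate_succ_apply' _ _ _
  have hDa : ∀ n m, n ≤ m → (D m).1 ⊆ (D n).1 := by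
    intro n m hnm
    induction m, hnm using Nat.le_induction with
    | base => exact Subset.rfl
    | succ m _ ih => rw [hDs]; exact (h1 _).trans ih
  obtain ⟨c, hc⟩ : ∃ c : Bool × Bool, ∃ᶠ n in atTop, (β (D n), γ (D n)) = c := by
    by_contra hcon
    push Not at hcon
    have := (eventually_all.2 hcon).exists
    obtain ⟨n, hn⟩ := this
    exact hn _ rfl
  obtain ⟨β0, γ0⟩ := c
  let P : ℕ → Prop := fun n => (β (D n), γ (D n)) = (β0, γ0)
  have hPβ : ∀ n, P n → β (D n) = β0 := fun n h => congrArg Prod.fst h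
  have hPγ : ∀ n, P n → γ (D n) = γ0 := fun n h => congrArg Prod.snd h
  have hSD : ∀ n m, n < m → S (D m) ⊆ (nx (D n)).1 := by
    intro n m hnm
    rw [← hDs]
    exact (h7 _).trans (hDa _ _ hnm)
  have hSU : ∀ n, S (D n) ⊆ U := fun n =>
    (h7 _).trans ((D n).2.2.2.trans (hN's.trans (interior_subset.trans
      (hNs.trans inter_subset_left))))
  have hmono : ∀ n m, P n → P m → n < m → ∀ x ∈ S (D n), ∀ y ∈ S (D m), T.r γ0 x y := by
    intro n m hn _ hnm x hx y hy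
    rw [← hPγ n hn]
    exact h10 _ x hx y (hSD n m hnm hy)
  obtain ⟨p, hp⟩ := hfc.sub hU P (fun n => S (D n)) (fun n => h3 _)
    (hc.mono fun n hn => ⟨hn, (h5 _).mono (subset_inter Subset.rfl (hSU n))⟩)
  obtain ⟨q, hq⟩ := hfc.sub hU P (fun n => G (D n)) (fun n => h2 _)
    (hc.mono fun n hn => ⟨hn, (h4 _).mono (subset_inter Subset.rfl ((h6 _).trans sdiff_subset))⟩)
  have hpN : p ∈ interior N := by
    have := hp.mem_closure (A := N') (fun n _ => (h7 _).trans (D n).2.2.2)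
    rw [hN'c.closure_eq] at this
    exact hN's this
  have hqN : q ∉ interior N := by
    have := hq.mem_closure (A := Nᶜ) (fun n _ => (h6 _).trans (fun x hx => hx.2))
    rw [closure_compl] at this
    exact this
  have hqp : q ≠ p := by
    rintro rfl
    exact hqN hpN
  obtain ⟨δ, hδ⟩ := T.r_exists hqp
  obtain ⟨Oq, Op, a1, a2, a3, a4, H⟩ := T.r_opn hδ
  have hq' := hq Oq (a1.mem_nhds a3)
  obtain ⟨p', hp'⟩ := hfc.sub hU (fun n => P n ∧ (Oq ∩ G (D n)).Nonempty) (fun n => S (D n))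
    (fun n => h3 _) (hq'.mono fun n hn => ⟨hn, (h5 _).mono (subset_inter Subset.rfl (hSU n))⟩)
  have hpp : p' = p := clus_unique' T γ0 hmono (hp'.mono (fun n h => h.1) (fun _ _ => Subset.rfl)) hp
  subst hpp
  have e1 : δ = !β0 := by
    obtain ⟨n, ⟨hn, g, hg, hg'⟩, t, ht, ht'⟩ := (hp' Op (a2.mem_nhds a4)).exists
    have := h9 _ g hg' t ht'
    rw [hPβ n hn] at this
    exact T.r_unique (H g hg t ht) this
  have e2 : δ = β0 := by
    obtain ⟨n, hn, g, hg, hg'⟩ := hq'.exists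
    obtain ⟨m, hm, -, t, ht, ht'⟩ := frequently_atTop.1 (hp Op (a2.mem_nhds a4)) (n + 1)
    have := h8 _ g hg' t (hSD n m (by omega) ht')
    rw [hPβ n hn] at this
    exact T.r_unique (H g hg t ht) this
  rw [e2] at e1
  simp at e1

end Pool.Agent.P.MP_abcfaf_gt
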