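import Pool.Agent.P.MP_abcfaf_gt.CL

open Set Filter Topology

namespace Pool.Agent.P.MP_abcfaf_gt

universe u

variable {X : Type u} [TopologicalSpace X]

/-- The trace of an outside point on `K`. -/
def Tour.tr (T : Tour X) (K : Set X) (y : X) : Set X := {x | x ∈ K ∧ y ∉ K ∧ T.b y x}

/-- The dual trace. -/
def Tour.dtr (T : Tour X) (K : Set X) (x : X) : Set X := {y | x ∈ K ∧ y ∉ K ∧ T.b y x}

theorem tr_lc [RegularSpace X] (T : Tour X) (hloc : ∀ x : X, ∃ U, IsOpen U ∧ x ∈ U ∧ FC U)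
    {K : Set X} (hK : IsClopen K) (hfc : FC K) : IsLocallyConstant (T.tr K) := by
  rw [IsLocallyConstant.iff_eventually_eq]
  intro y
  by_cases hy : y ∈ K
  · filter_upwards [hK.isOpen.mem_nhds hy] with w hw
    ext x
    simp [Tour.tr, hy, hw]
  · obtain ⟨U, h1, h2, h3⟩ := hloc y
    obtain ⟨D, hD, H⟩ := module_lemma T (hK.isOpen.union h1) (hfc.union hK.isOpen h3 h1)
      (F := K) subset_union_left (Or.inr h2) (by rw [hK.isClosed.closure_eq]; exact hy)
    filter_upwards [hD, hK.compl.isOpen.mem_nhds hy] with w hw hwK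
    ext x
    simp only [Tour.tr, mem_ofPred_eq]
    have hyD := mem_of_mem_nhds hD
    constructor
    · rintro ⟨h4, -, h5⟩
      refine ⟨h4, hy, ?_⟩
      rcases H x h4 with h | h
      · exact absurd h5 (T.asym _ _ (h w hw))
      · exact h y hyD
    · rintro ⟨h4, -, h5⟩
      refine ⟨h4, hwK, ?_⟩
      rcases H x h4 with h | h
      · exact absurd h5 (T.asym _ _ (h y hyD))
      · exact h w hw

theorem dtr_lc [RegularSpace X] (hP : KP X) (T : Tour X)
    (hloc : ∀ x : X, ∃ U, IsOpen U ∧ x ∈ U ∧ FC U)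
    {K : Set X} (hK : IsClopen K) (hfc : FC K) : IsLocallyConstant (T.dtr K) := by
  have hf := finite_range hP T _ (tr_lc T hloc hK hfc)
  rw [IsLocallyConstant.iff_eventually_eq]
  intro x
  by_cases hx : x ∈ K
  · have h1 : ∀ v ∈ range (T.tr K), ∀ᶠ w in 𝓝 x, (w ∈ v ↔ x ∈ v) := by
      rintro _ ⟨y, rfl⟩
      by_cases hy : y ∈ K
      · simp [Tour.tr, hy]
      · have hne : y ≠ x := fun h => hy (h ▸ hx)
        rcases T.tot y x hne with h | h
        · filter_upwards [hK.isOpen.mem_nhds hx, (T.isOpen_out y).mem_nhds h] with w hw hw'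
          exact ⟨fun _ => ⟨hx, hy, h⟩, fun _ => ⟨hw, hy, hw'⟩⟩
        · filter_upwards [(T.isOpen_in y).mem_nhds h] with w hw'
          exact ⟨fun h2 => absurd h2.2.2 (T.asym _ _ hw'), fun h2 => absurd h2.2.2 (T.asym _ _ h)⟩
    filter_upwards [(eventually_all_finite hf).2 h1] with w hw
    ext y
    exact hw _ ⟨y, rfl⟩
  · filter_upwards [hK.compl.isOpen.mem_nhds hx] with w hw
    have : w ∉ K := hw
    ext y
    simp [Tour.dtr, hx, this]

/-- `a` is a module with respect to the points outside `K`. -/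
def Tour.Mod (T : Tour X) (K a : Set X) : Prop :=
  ∀ y, y ∉ K → ∀ x ∈ a, ∀ x' ∈ a, T.b y x → T.b y x'

theorem mod_fiber (T : Tour X) (K : Set X) (v : Set X) : T.Mod K (K ∩ {x | T.dtr K x = v}) := by
  intro y hy x hx x' hx' h
  have h1 : y ∈ T.dtr K x := ⟨hx.1, hy, h⟩
  have h2 : T.dtr K x = v := hx.2
  have h3 : T.dtr K x' = v := hx'.2
  rw [h2, ← h3] at h1
  exact h1.2.2

theorem ramsey_nat (r : ℕ → ℕ → Prop) :
    ∃ φ : ℕ → ℕ, StrictMono φ ∧
      ((∀ n m, n < m → r (φ n) (φ m)) ∨ (∀ n m, n < m → ¬ r (φ n) (φ m))) := by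
  have key : ∀ r : ℕ → ℕ → Prop, {i | {j | r i j} ∈ hyperfilter ℕ} ∈ hyperfilter ℕ →
      ∃ φ : ℕ → ℕ, StrictMono φ ∧ ∀ n m, n < m → r (φ n) (φ m) := by
    intro r hr
    let W := {A : Set ℕ // A ∈ hyperfilter ℕ}
    have step : ∀ A : W, ∃ i ∈ A.1, ∃ A' : W, A'.1 ⊆ A.1 ∧ ∀ j ∈ A'.1, i < j ∧ r i j := by
      rintro ⟨A, hA⟩
      obtain ⟨i, hi, hi'⟩ := Ultrafilter.nonempty_of_mem (inter_mem hA hr)
      have h1 : {j | i < j} ∈ hyperfilter ℕ := by
        apply mem_hyperfilter_of_finite_compl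
        refine (Set.finite_le_nat i).subset ?_
        intro j hj
        simpa using hj
      exact ⟨i, hi, ⟨A ∩ ({j | i < j} ∩ {j | r i j}), inter_mem hA (inter_mem h1 hi')⟩,
        inter_subset_left, fun j hj => hj.2⟩
    choose i hi nx h1 h2 using step
    let A : ℕ → W := fun n => nx^[n] ⟨univ, univ_mem⟩
    have hAs : ∀ n, A (n + 1) = nx (A n) := fun n => Function.iterate_succ_apply' _ _ _
    have hAa : ∀ n m, n ≤ m → (A m).1 ⊆ (A n).1 := by
      intro n m hnm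
      induction m, hnm using Nat.le_induction with
      | base => exact Subset.rfl
      | succ m _ ih => rw [hAs]; exact (h1 _).trans ih
    have h3 : ∀ n m, n < m → i (A n) < i (A m) ∧ r (i (A n)) (i (A m)) := by
      intro n m hnm
      apply h2
      rw [← hAs]
      exact hAa _ _ hnm (hi _)
    exact ⟨fun n => i (A n), fun n m h => (h3 n m h).1, fun n m h => (h3 n m h).2⟩
  rcases (hyperfilter ℕ).mem_or_compl_mem {i | {j | r i j} ∈ hyperfilter ℕ} with h | h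
  · obtain ⟨φ, h1, h2⟩ := key r h
    exact ⟨φ, h1, Or.inl h2⟩
  · obtain ⟨φ, h1, h2⟩ := key (fun i j => ¬ r i j) (by
      refine mem_of_superset h ?_
      intro i hi
      exact Ultrafilter.compl_mem_iff_notMem.2 hi)
    exact ⟨φ, h1, Or.inr h2⟩

theorem mono_lemma (hP : KP X) (T : Tour X) (K a : ℕ → Set X)
    (hd : ∀ n m, n ≠ m → Disjoint (K n) (K m)) (ha : ∀ n, a n ⊆ K n)
    (hc : ∀ n, IsClopen (a n)) (hne : ∀ n, (a n).Nonempty) (hm : ∀ n, T.Mod (K n) (a n)) :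
    ∃ p, ∀ L, IsClopen L → p ∈ L → ∃ᶠ j in atTop, a j ⊆ L := by
  choose x hx using hne
  have hout : ∀ n m, n ≠ m → ∀ y ∈ a n, y ∉ K m := fun n m h y hy =>
    Set.disjoint_left.1 (hd n m h) (ha n hy)
  have hall : ∀ n m, n ≠ m → T.b (x n) (x m) → ∀ s ∈ a n, ∀ t ∈ a m, T.b s t := by
    intro n m h hb s hs t ht
    have h1 : T.b (x n) t := hm m (x n) (hout n m h _ (hx n)) _ (hx m) t ht hb
    have h2 : s ≠ t := by
      rintro rfl
      exact hout n m h s hs (ha m ht)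
    by_contra h3
    exact T.asym _ _ h1 (hm n t (hout m n h.symm t ht) s hs _ (hx n) (T.of_not h2 h3))
  obtain ⟨φ, hφ, H⟩ := ramsey_nat (fun n m => T.b (x n) (x m))
  obtain ⟨γ, hγ⟩ : ∃ γ : Bool, ∀ n m, True → True → n < m →
      ∀ s ∈ a (φ n), ∀ t ∈ a (φ m), T.r γ s t := by
    rcases H with H | H
    · exact ⟨true, fun n m _ _ h s hs t ht => by
        simpa [Tour.r] using hall _ _ (hφ h).ne (H n m h) s hs t ht⟩
    · refine ⟨false, fun n m _ _ h s hs t ht => ?_⟩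
      have h1 : x (φ n) ≠ x (φ m) := by
        intro h1
        exact hout _ _ (hφ h).ne _ (hx _) (h1 ▸ ha _ (hx _))
      simpa [Tour.r] using hall _ _ (hφ h).ne' (T.of_not h1 (H n m h)) t ht s hs
  have hda : ∀ n m, n ≠ m → Disjoint (a (φ n)) (a (φ m)) := fun n m h =>
    (hd _ _ (hφ.injective.ne h)).mono (ha _) (ha _)
  obtain ⟨p, hp⟩ := clopen_cluster hP T (fun _ => True) (fun n => a (φ n))
    (Frequently.of_forall fun n => ⟨trivial, _, hx _⟩) (fun n => hc _) hda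
  refine ⟨p, fun L hL hpL => ?_⟩
  by_contra hno
  have h1 : ∀ᶠ j in atTop, ¬ a (φ j) ⊆ L := hφ.tendsto_atTop.eventually (not_frequently.1 hno)
  obtain ⟨q, hq⟩ := clopen_cluster hP T (fun _ => True) (fun n => a (φ n) \ L)
    (h1.frequently.mono fun n hn => ⟨trivial, by
      rw [not_subset] at hn
      exact hn⟩) (fun n => (hc _).diff hL)
    (fun n m h => (hda n m h).mono sdiff_subset sdiff_subset)
  have h2 : q ∈ closure Lᶜ := hq.mem_closure (fun n _ y hy => hy.2)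
  rw [hL.compl.isClosed.closure_eq] at h2
  have h3 : q = p := clus_unique' T γ hγ (hq.mono (fun _ h => h) (fun _ _ => sdiff_subset)) hp
  exact h2 (h3 ▸ hpL)

/-- The ideal of subsets of open feebly compact sets. -/
def fcSmall (hloc : ∀ x : X, ∃ U, IsOpen U ∧ x ∈ U ∧ FC U) : Small X where
  S A := ∃ U, IsOpen U ∧ A ⊆ U ∧ FC U
  mono := fun h ⟨U, h1, h2, h3⟩ => ⟨U, h1, h.trans h2, h3⟩
  union := fun ⟨U, h1, h2, h3⟩ ⟨V, k1, k2, k3⟩ =>
    ⟨U ∪ V, h1.union k1, union_subset_union h2 k2, h3.union h1 k3 k1⟩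
  loc x := by
    obtain ⟨U, h1, h2, h3⟩ := hloc x
    exact ⟨U, h1, h2, ⟨U, h1, Subset.rfl, h3⟩, h3⟩

theorem fc_univ [RegularSpace X] (hP : KP X) (T : Tour X)
    (hloc : ∀ x : X, ∃ U, IsOpen U ∧ x ∈ U ∧ FC U) : FC (univ : Set X) := by
  intro V hV hne _
  by_contra hno
  push Not at hno
  have hcl : ∀ x : X, ∃ K, IsClopen K ∧ x ∈ K ∧ FC K := by
    intro x
    obtain ⟨K, h1, h2, U, -, h3, h4⟩ := small_clopen hP T (fcSmall hloc) x
    exact ⟨K, h1, h2, h4.mono h3⟩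
  have hfin : ∀ L, IsClopen L → FC L → ∀ᶠ n in atTop, ¬ (V n ∩ L).Nonempty := by
    intro L h1 h2
    by_contra h3
    obtain ⟨p, hp⟩ := h2.sub h1.isOpen (fun _ => True) V hV
      ((not_eventually.1 h3).mono fun n hn => ⟨trivial, not_not.1 hn⟩)
    exact hno p hp
  let W := {L : Set X // IsClopen L ∧ FC L}
  have step : ∀ (k : ℕ) (L : W), ∃ K : W, Disjoint L.1 K.1 ∧ ∃ n, k ≤ n ∧ (V n ∩ K.1).Nonempty := by
    rintro k ⟨L, h1, h2⟩
    obtain ⟨n, hn, hn'⟩ := ((hfin L h1 h2).and (eventually_ge_atTop k)).exists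
    obtain ⟨x, hx⟩ := hne n
    obtain ⟨K, k1, k2, k3⟩ := hcl x
    exact ⟨⟨K \ L, k1.diff h1, k3.mono sdiff_subset⟩, disjoint_sdiff_right, n, hn',
      x, hx, k2, fun h => hn ⟨x, hx, h⟩⟩
  choose nx h1 idx h2 h3 using step
  let L : ℕ → W := fun n => Nat.rec ⟨∅, isClopen_empty, fun V _ h h' => by
      obtain ⟨x, hx⟩ := h 0
      exact absurd (h' 0 hx) (notMem_empty x)⟩
    (fun k A => ⟨A.1 ∪ (nx k A).1, A.2.1.union (nx k A).2.1,
      A.2.2.union A.2.1.isOpen (nx k A).2.2 (nx k A).2.1.isOpen⟩) n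
  have hLs : ∀ n, (L (n + 1)).1 = (L n).1 ∪ (nx n (L n)).1 := fun n => rfl
  have hLa : ∀ n m, n ≤ m → (L n).1 ⊆ (L m).1 := by
    intro n m hnm
    induction m, hnm using Nat.le_induction with
    | base => exact Subset.rfl
    | succ m _ ih => rw [hLs]; exact ih.trans subset_union_left
  let K : ℕ → Set X := fun n => (nx n (L n)).1
  have hlt : ∀ n m, n < m → Disjoint (K n) (K m) := by
    intro n m h
    refine (h1 m (L m)).mono_left ?_
    exact subset_union_right.trans ((hLs n).symm.subset.trans (hLa _ _ h))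
  have hd : ∀ n m, n ≠ m → Disjoint (K n) (K m) := by
    intro n m h
    rcases lt_or_gt_of_ne h with h | h
    · exact hlt n m h
    · exact (hlt m n h).symm
  choose x hx using fun n => h3 n (L n)
  obtain ⟨p, hp⟩ := mono_lemma hP T K (fun n => K n ∩ {y | T.dtr (K n) y = T.dtr (K n) (x n)}) hd
    (fun n => inter_subset_left)
    (fun n => (nx n (L n)).2.1.inter
      ((dtr_lc hP T hloc (nx n (L n)).2.1 (nx n (L n)).2.2).isClopen_fiber _))
    (fun n => ⟨x n, (hx n).2, rfl⟩) (fun n => mod_fiber T _ _)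
  obtain ⟨K0, k1, k2, k3⟩ := hcl p
  obtain ⟨N, hN⟩ := eventually_atTop.1 (hfin K0 k1 k3)
  obtain ⟨j, hj, hj'⟩ := frequently_atTop.1 (hp K0 k1 k2) N
  exact hN (idx j (L j)) (hj.trans (h2 _ _)) ⟨x j, (hx j).1, hj' ⟨(hx j).2, rfl⟩⟩

theorem Small.empty (I : Small X) (x : X) : I.S ∅ := by
  obtain ⟨U, -, -, h, -⟩ := I.loc x
  exact I.mono (empty_subset U) h

theorem big_fiber (hP : KP X) (T : Tour X) (I : Small X) {A : Set X} (hA : ¬ I.S A)
    {α : Type*} (h : X → α) (hh : IsLocallyConstant h) : ∃ v, ¬ I.S (A ∩ {x | h x = v}) := by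
  by_contra hno
  push Not at hno
  obtain ⟨z, -⟩ := hP T
  have key : ∀ s : Set α, s.Finite → I.S (A ∩ {x | h x ∈ s}) := by
    intro s hs
    induction s, hs using Set.Finite.induction_on with
    | empty => simpa using I.empty z
    | @insert v s _ _ ih =>
      refine I.mono ?_ (I.union (hno v) ih)
      rintro x ⟨h1, h2 | h2⟩
      · exact Or.inl ⟨h1, h2⟩
      · exact Or.inr ⟨h1, h2⟩
  refine hA (I.mono ?_ (key _ (finite_range hP T h hh)))
  exact fun x hx => ⟨hx, x, rfl⟩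

theorem exists_atom [RegularSpace X] (hP : KP X) (T : Tour X) (I : Small X)
    (hfc : FC (univ : Set X)) (hS : ¬ I.S univ) :
    ∃ Y, IsClopen Y ∧ ¬ I.S Y ∧ ∀ E, IsClopen E → E ⊆ Y → I.S E ∨ I.S (Y \ E) := by
  by_contra hno
  push Not at hno
  have hloc : ∀ x : X, ∃ U, IsOpen U ∧ x ∈ U ∧ FC U := fun x => ⟨univ, isOpen_univ, trivial, hfc⟩
  let W := {Y : Set X // IsClopen Y ∧ ¬ I.S Y}
  have step : ∀ Y : W, ∃ E : W, ∃ Y' : W, E.1 ⊆ Y.1 ∧ Y'.1 = Y.1 \ E.1 := by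
    rintro ⟨Y, h1, h2⟩
    obtain ⟨E, k1, k2, k3, k4⟩ := hno Y h1 h2
    exact ⟨⟨E, k1, k3⟩, ⟨Y \ E, h1.diff k1, k4⟩, k2, rfl⟩
  choose E nx h1 h2 using step
  let Y : ℕ → W := fun n => nx^[n] ⟨univ, isClopen_univ, hS⟩
  have hYs : ∀ n, Y (n + 1) = nx (Y n) := fun n => Function.iterate_succ_apply' _ _ _
  have hYa : ∀ n m, n ≤ m → (Y m).1 ⊆ (Y n).1 := by
    intro n m hnm
    induction m, hnm using Nat.le_induction with
    | base => exact Subset.rfl
    | succ m _ ih => rw [hYs, h2]; exact sdiff_subset.trans ih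
  let K : ℕ → Set X := fun n => (E (Y n)).1
  have hlt : ∀ n m, n < m → Disjoint (K n) (K m) := by
    intro n m h
    have h3 : K m ⊆ (Y n).1 \ K n := by
      have := (h1 (Y m)).trans (hYa _ _ h)
      rw [hYs, h2] at this
      exact this
    exact disjoint_sdiff_right.mono_right h3
  have hd : ∀ n m, n ≠ m → Disjoint (K n) (K m) := by
    intro n m h
    rcases lt_or_gt_of_ne h with h | h
    · exact hlt n m h
    · exact (hlt m n h).symm
  have hlc : ∀ n, IsLocallyConstant (T.dtr (K n)) := fun n =>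
    dtr_lc hP T hloc (E (Y n)).2.1 (hfc.mono (subset_univ _))
  choose v hv using fun n => big_fiber hP T I (E (Y n)).2.2 _ (hlc n)
  obtain ⟨z, -⟩ := hP T
  obtain ⟨p, hp⟩ := mono_lemma hP T K (fun n => K n ∩ {y | T.dtr (K n) y = v n}) hd
    (fun n => inter_subset_left) (fun n => (E (Y n)).2.1.inter ((hlc n).isClopen_fiber _))
    (fun n => by
      rw [nonempty_iff_ne_empty]
      intro h
      apply hv n
      exact I.mono h.subset (I.empty z)) (fun n => mod_fiber T _ _)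
  obtain ⟨K0, k1, k2, k3⟩ := small_clopen hP T I p
  obtain ⟨j, hj⟩ := (hp K0 k1 k2).exists
  exact hv j (I.mono hj k3)

theorem atom_false [RegularSpace X] (hP : KP X) (T : Tour X) (I : Small X)
    (hfc : FC (univ : Set X)) {Y : Set X} (hY : IsClopen Y) :
    IsClopen {x | x ∈ Y ∧ I.S {y | y ∈ Y ∧ T.b x y}} ∧
      I.S {x | x ∈ Y ∧ I.S {y | y ∈ Y ∧ T.b x y}} := by
  have hloc : ∀ x : X, ∃ U, IsOpen U ∧ x ∈ U ∧ FC U := fun x => ⟨univ, isOpen_univ, trivial, hfc⟩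
  set A := {x | x ∈ Y ∧ I.S {y | y ∈ Y ∧ T.b x y}} with hAdef
  have hA : IsClopen A := by
    have hlc : ∀ x, ∀ᶠ w in 𝓝 x, (I.S {y | y ∈ Y ∧ T.b w y} ↔ I.S {y | y ∈ Y ∧ T.b x y}) := by
      intro x
      obtain ⟨K, k1, k2, k3⟩ := small_clopen hP T I x
      have h1 := (dtr_lc hP T.rev hloc k1 (hfc.mono (subset_univ _))).eventually_eq x
      have h2 : ∀ s t, s ∈ K → T.rev.dtr K s = T.rev.dtr K t → I.S {y | y ∈ Y ∧ T.b t y} →
          I.S {y | y ∈ Y ∧ T.b s y} := by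
        intro s t hs hst h
        refine I.mono ?_ (I.union k3 h)
        rintro y ⟨h3, h4⟩
        by_cases hy : y ∈ K
        · exact Or.inl hy
        · have h5 : y ∈ T.rev.dtr K s := ⟨hs, hy, h4⟩
          rw [hst] at h5
          exact Or.inr ⟨h3, h5.2.2⟩
      filter_upwards [h1, k1.isOpen.mem_nhds k2] with w hw hwK
      exact ⟨h2 x w k2 hw.symm, h2 w x hwK hw⟩
    have hB : IsClopen {x | I.S {y | y ∈ Y ∧ T.b x y}} := by
      constructor
      · rw [← isOpen_compl_iff, isOpen_iff_mem_nhds]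
        intro y hy
        filter_upwards [hlc y] with w hw
        exact fun h => hy (hw.1 h)
      · rw [isOpen_iff_mem_nhds]
        intro y hy
        filter_upwards [hlc y] with w hw
        exact hw.2 hy
    exact hY.inter hB
  refine ⟨hA, ?_⟩
  by_contra hno
  obtain ⟨z0, -⟩ := hP T
  have hne : A.Nonempty := by
    rw [nonempty_iff_ne_empty]
    intro h
    exact hno (I.mono h.subset (I.empty z0))
  obtain ⟨z, hz, hking⟩ := king_clopen hP T hA hne
  obtain ⟨K, k1, k2, k3⟩ := small_clopen hP T I z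
  let K' : Set X := (K ∪ ((Y \ K) ∩ {y | T.b z y})) ∩ A
  have hK' : IsClopen K' := (k1.union (T.clopen_out (hY.diff k1) (fun h => h.2 k2))).inter hA
  have hS' : I.S K' := by
    refine I.mono ?_ (I.union k3 hz.2)
    rintro y ⟨h1 | h1, -⟩
    · exact Or.inl h1
    · exact Or.inr ⟨h1.1.1, h1.2⟩
  have hbig : ¬ I.S (A \ K') := by
    intro h
    apply hno
    refine I.mono ?_ (I.union hS' h)
    intro y hy
    by_cases h1 : y ∈ K'
    · exact Or.inl h1
    · exact Or.inr ⟨hy, h1⟩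
  obtain ⟨v, hv⟩ := big_fiber hP T I hbig _ (tr_lc T hloc hK' (hfc.mono (subset_univ _)))
  have hbeat : ∀ x ∈ K', ∀ w ∈ (A \ K') ∩ {y | T.tr K' y = v}, T.b w x := by
    intro x hx w hw
    have h1 : ¬ ((A \ K') ∩ {y | T.tr K' y = v} ⊆ {y | y ∈ Y ∧ T.b x y}) :=
      fun h => hv (I.mono h hx.2.2)
    obtain ⟨y, hy, hy'⟩ := not_subset.1 h1
    have h2 : x ≠ y := by
      rintro rfl
      exact hy.1.2 hx
    have h3 : x ∈ T.tr K' y := ⟨hx, hy.1.2, T.of_not h2 (fun h => hy' ⟨hy.1.1.1, h⟩)⟩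
    have h4 : T.tr K' y = v := hy.2
    have h5 : T.tr K' w = v := hw.2
    rw [h4, ← h5] at h3
    exact h3.2.2
  obtain ⟨w, hw⟩ : ((A \ K') ∩ {y | T.tr K' y = v}).Nonempty := by
    rw [nonempty_iff_ne_empty]
    intro h
    exact hv (I.mono h.subset (I.empty z0))
  obtain ⟨y, hy, h1, h2⟩ := hking w hw.1.1
  have hyK : y ∈ K' := by
    refine ⟨?_, hy⟩
    by_cases h3 : y ∈ K
    · exact Or.inl h3
    · rcases h1 with rfl | h1
      · exact absurd k2 h3
      · exact Or.inr ⟨⟨hy.1, h3⟩, h1⟩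
  rcases h2 with rfl | h2
  · exact hw.1.2 hyK
  · exact T.asym _ _ h2 (hbeat y hyK w hw)

theorem small_univ [RegularSpace X] (hP : KP X) (T : Tour X) (I : Small X) : I.S univ := by
  have hfc : FC (univ : Set X) := fc_univ hP T (fun x => by
    obtain ⟨U, h1, h2, -, h3⟩ := I.loc x
    exact ⟨U, h1, h2, h3⟩)
  by_contra hS
  obtain ⟨Y, hY, hYS, hat⟩ := exists_atom hP T I hfc hS
  apply hYS
  refine I.mono ?_ (I.union (atom_false hP T I hfc hY).2 (atom_false hP T.rev I hfc hY).2)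
  intro x hx
  obtain ⟨K, k1, k2, k3⟩ := small_clopen hP T I x
  rcases hat _ (T.clopen_out (hY.diff k1) (fun h => h.2 k2)) (fun y hy => hy.1.1) with h | h
  · refine Or.inl ⟨hx, I.mono ?_ (I.union k3 h)⟩
    rintro y ⟨h1, h2⟩
    by_cases hy : y ∈ K
    · exact Or.inl hy
    · exact Or.inr ⟨⟨h1, hy⟩, h2⟩
  · refine Or.inr ⟨hx, I.mono ?_ h⟩
    rintro y ⟨h1, h2⟩
    exact ⟨h1, fun h3 => T.asym _ _ h3.2 h2⟩

theorem compact_of_kp [RegularSpace X] (hP : KP X) (T : Tour X)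
    (hloc : ∀ x : X, ∃ U, IsOpen U ∧ x ∈ U ∧ FC U) : CompactSpace X := by
  classical
  refine ⟨isCompact_of_finite_subcover ?_⟩
  intro ι C hC hcov
  let I : Small X :=
    { S := fun A => ∃ t : Finset ι, A ⊆ ⋃ i ∈ t, C i
      mono := fun h ⟨t, ht⟩ => ⟨t, h.trans ht⟩
      union := fun ⟨t, ht⟩ ⟨s, hs⟩ => ⟨t ∪ s, by
        rw [Finset.set_biUnion_union]
        exact union_subset_union ht hs⟩
      loc := fun x => by
        obtain ⟨U, h1, h2, h3⟩ := hloc x
        obtain ⟨i, hi⟩ := mem_iUnion.1 (hcov (mem_univ x))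
        exact ⟨U ∩ C i, h1.inter (hC i), ⟨h2, hi⟩, ⟨{i}, by simp⟩, h3.mono inter_subset_left⟩ }
  exact small_univ hP T I

end Pool.Agent.P.MP_abcfaf_gt
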